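import Pool.Agent.H29.ET2.Sub

set_option autoImplicit false

/-! # Exact triangles: no triangle of weight zero, or many -/

namespace Pool.Agent.H29.ET2

open Finset Pool.Agent.Y638.RF
open Pool.Agent.TH697.Form (IsProb)
open Pool.Agent.TH697.Row (ApproximatesOn)
open Pool.Agent.TH697.Form.ET (Item InRange zeroTri)

/-- The number of the triangles of weight zero. -/
def numZero (n : ℕ) (x : ∀ i, Item n i) : ℕ :=
  (univ.filter fun p : Fin n × Fin n × Fin n =>
    (x (some p.1)).1 p.2.1 + x none p.2.1 p.2.2 + (x (some p.1)).2 p.2.2 = 0).card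

/-- There is no triangle of weight zero, or there are at least `t`. -/
def Gap (n t : ℕ) (x : ∀ i, Item n i) : Prop := numZero n x = 0 ∨ t ≤ numZero n x

theorem zeroTri_iff (n : ℕ) (x : ∀ i, Item n i) : zeroTri n x = true ↔ numZero n x ≠ 0 := by
  unfold zeroTri numZero
  rw [decide_eq_true_iff, Finset.card_ne_zero]
  constructor
  · rintro ⟨i, k, j, h⟩
    exact ⟨(i, k, j), by simpa using h⟩
  · rintro ⟨p, hp⟩
    exact ⟨p.1, p.2.1, p.2.2, by simpa using hp⟩

/-! ## Blow-ups -/

/-- The vertex whose copy the vertex `i` is. -/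
def rho {n m : ℕ} (hm : 0 < m) (i : Fin n) : Fin m := ⟨i.val % m, Nat.mod_lt _ hm⟩

/-- The items of the blow-up are functions of the items. -/
def phi {n m : ℕ} (hm : 0 < m) : ∀ i : Option (Fin n), Item m (Option.map (rho hm) i) → Item n i
  | none => fun B k j => B (rho hm k) (rho hm j)
  | some _ => fun d => (fun k => d.1 (rho hm k), fun k => d.2 (rho hm k))

/-- The blow-up. -/
def big {n m : ℕ} (hm : 0 < m) (x : ∀ i, Item m i) : ∀ i, Item n i :=
  fun i => phi hm i (x (Option.map (rho hm) i))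

theorem big_weight {n m : ℕ} (hm : 0 < m) (x : ∀ i, Item m i) (i k j : Fin n) :
    ((big hm x : ∀ i, Item n i) (some i)).1 k + (big hm x : ∀ i, Item n i) none k j +
      ((big hm x : ∀ i, Item n i) (some i)).2 j =
    (x (some (rho hm i))).1 (rho hm k) + x none (rho hm k) (rho hm j) +
      (x (some (rho hm i))).2 (rho hm j) := rfl

theorem big_inRange {n m : ℕ} (hm : 0 < m) (hmn : m ≤ n) (x : ∀ i, Item m i)
    (hx : InRange m (m ^ 2) x) : InRange n (n ^ 2) (big hm x) := by
  have h2 : (((m ^ 2 : ℕ) : ℕ) : ℤ) ≤ ((n ^ 2 : ℕ) : ℤ) := by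
    exact_mod_cast Nat.pow_le_pow_left hmn 2
  refine ⟨fun k j => (hx.1 _ _).trans h2, fun i k => ⟨((hx.2 _ _).1).trans h2,
    ((hx.2 _ _).2).trans h2⟩⟩

theorem rho_surj {n m : ℕ} (hm : 0 < m) (k : ℕ) (hk : k * m ≤ n) (i : Fin m) (l : Fin k) :
    ∃ a : Fin n, rho hm a = i ∧ a.val = i.val + l.val * m := by
  have h1 : i.val + l.val * m < n := by
    have hi := i.isLt
    have hl := l.isLt
    calc i.val + l.val * m < m + l.val * m := by omega
      _ = (l.val + 1) * m := by ring
      _ ≤ k * m := Nat.mul_le_mul_right _ hl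
      _ ≤ n := hk
  refine ⟨⟨i.val + l.val * m, h1⟩, ?_, rfl⟩
  apply Fin.ext
  simp only [rho]
  rw [Nat.add_mul_mod_self_right, Nat.mod_eq_of_lt i.isLt]

theorem big_zero {n m : ℕ} (hm : 0 < m) (x : ∀ i, Item m i) (h0 : numZero m x = 0) :
    numZero n (big hm x) = 0 := by
  unfold numZero at h0 ⊢
  rw [Finset.card_eq_zero, Finset.filter_eq_empty_iff] at h0 ⊢
  intro p _
  rw [big_weight]
  exact h0 (Finset.mem_univ (rho hm p.1, rho hm p.2.1, rho hm p.2.2))

theorem big_many {n m : ℕ} (hm : 0 < m) (k : ℕ) (hk : k * m ≤ n) (x : ∀ i, Item m i)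
    (h0 : numZero m x ≠ 0) : k ^ 3 ≤ numZero n (big hm x) := by
  unfold numZero at h0
  rw [Finset.card_ne_zero] at h0
  obtain ⟨⟨i, j, l⟩, hp⟩ := h0
  simp only [Finset.mem_filter, Finset.mem_univ, true_and] at hp
  choose f hf hf' using rho_surj (n := n) hm k hk
  have hinj : ∀ i, Function.Injective (f i) := by
    intro i a b hab
    have h1 := congrArg Fin.val hab
    rw [hf', hf'] at h1
    have h2 : a.val * m = b.val * m := by omega
    exact Fin.ext (Nat.eq_of_mul_eq_mul_right hm h2)
  have hcard : (univ : Finset (Fin k × Fin k × Fin k)).card = k ^ 3 := by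
    simp [Finset.card_univ, Fintype.card_prod]; ring
  rw [← hcard]
  unfold numZero
  apply Finset.card_le_card_of_injOn (fun a => (f i a.1, f j a.2.1, f l a.2.2))
  · intro a _
    simp only [Finset.coe_filter, Finset.mem_univ, true_and, Set.mem_ofPred_eq]
    rw [big_weight, hf, hf, hf]
    exact hp
  · intro a _ b _ hab
    simp only [Prod.mk.injEq] at hab
    exact Prod.ext (hinj _ hab.1) (Prod.ext (hinj _ hab.2.1) (hinj _ hab.2.2))

theorem lower (n k c w : ℕ) (hk : 1 ≤ k) (hn : 256 * k ≤ n) (hc : 1 ≤ c) (hw : 1 ≤ w)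
    (Ω : Type) [Fintype Ω] (μ : Ω → ℝ) (hμ : IsProb μ) (s : ℕ)
    (B : Ω → Program (Option (Fin n)) (Item n) w ((n / k) ^ c) s)
    (hB : ApproximatesOn μ (fun ω => (B ω).eval)
      (fun x => InRange n (n ^ 2) x ∧ Gap n (k ^ 3) x) (zeroTri n)) :
    (n : ℝ) ^ 3 ≤ 1440000 * c * w ^ 2 * k ^ 3 * s := by
  classical
  have hm256 : 256 ≤ n / k := by
    rw [Nat.le_div_iff_mul_le (by omega)]; exact hn
  have hm : 0 < n / k := by omega
  have hkm : k * (n / k) ≤ n := Nat.mul_div_le n k
  have key := Pool.Agent.Y638.RF.ET.program_bound (n := n / k) hm256 hc hw μ hμ s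
    (fun ω => psubst (Option.map (rho hm)) (phi hm) (B ω)) (by
      intro x hx
      have hbig : zeroTri n (big hm x) = zeroTri (n / k) x := by
        rw [Bool.eq_iff_iff, zeroTri_iff, zeroTri_iff]
        constructor
        · intro h1 h2
          exact h1 (big_zero hm x h2)
        · intro h1 h2
          have h3 := big_many (n := n) hm k hkm x h1
          rw [h2] at h3
          have : 0 < k ^ 3 := by positivity
          omega
      have h1 := hB (big hm x) ⟨big_inRange hm (Nat.div_le_self n k) x hx, by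
        by_cases h0 : numZero (n / k) x = 0
        · left; exact big_zero hm x h0
        · right; exact big_many hm k hkm x h0⟩
      refine le_trans (le_of_eq ?_) h1
      apply Finset.sum_congr _ (fun _ _ => rfl)
      apply Finset.filter_congr
      intro ω _
      rw [hbig]
      have e : (psubst (Option.map (rho hm)) (phi hm) (B ω)).eval x = (B ω).eval (big hm x) :=
        eval_psubst _ _ _ _
      simp only [e])
  have h2 : n ≤ 2 * (k * (n / k)) := by
    have h3 : n < k * (n / k) + k := by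
      have := Nat.mod_lt n (by omega : 0 < k)
      have := Nat.div_add_mod n k
      omega
    have h4 : k ≤ k * (n / k) := Nat.le_mul_of_pos_right _ hm
    omega
  have h5 : (n : ℝ) ≤ 2 * (k * ((n / k : ℕ) : ℝ)) := by exact_mod_cast h2
  calc (n : ℝ) ^ 3 ≤ (2 * (k * ((n / k : ℕ) : ℝ))) ^ 3 := pow_le_pow_left₀ (by positivity) h5 3
    _ = 8 * k ^ 3 * (((n / k : ℕ) : ℝ)) ^ 3 := by ring
    _ ≤ 8 * k ^ 3 * (180000 * c * w ^ 2 * s) := mul_le_mul_of_nonneg_left key (by positivity)
    _ = _ := by ring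

/-! ## The upper bound -/

theorem mul_ite_cases (P Q : Prop) [Decidable P] [Decidable Q] :
    (if P then (1 : ℝ) else 0) * (if Q then (1 : ℝ) else 0) = 0 ∨
      (if P then (1 : ℝ) else 0) * (if Q then (1 : ℝ) else 0) = 1 := by
  by_cases hP : P <;> by_cases hQ : Q <;> simp [hP, hQ]

/-- One formula which tests a list of triangles. -/
theorem test (n w q K : ℕ) (τ : Fin K → Fin n × Fin n × Fin n) :
    ∃ B : Program (Option (Fin n)) (Item n) w q (4 * K + 1), B.nodes = 1 ∧
      ∀ x, B.eval x = true ↔ ∃ j, (x (some (τ j).1)).1 (τ j).2.1 + x none (τ j).2.1 (τ j).2.2 +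
        (x (some (τ j).1)).2 (τ j).2.2 = 0 := by
  classical
  obtain ⟨F, h1, h2⟩ := exists_or (w := w) (q := q) (fun p : Fin K =>
    Fml.mul
      (.pos (.add (.item (D := Item n) (some (τ p).1)
          (fun d => (d.1 (τ p).2.1 : ℝ) + d.2 (τ p).2.2 + 1))
        (.item (D := Item n) none (fun B => (B (τ p).2.1 (τ p).2.2 : ℝ)))))
      (.pos (.add (.item (D := Item n) (some (τ p).1)
          (fun d => 1 - (d.1 (τ p).2.1 : ℝ) - d.2 (τ p).2.2))
        (.item (D := Item n) none (fun B => -(B (τ p).2.1 (τ p).2.2 : ℝ))))))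
    (fun x p => (x (some (τ p).1)).1 (τ p).2.1 + x none (τ p).2.1 (τ p).2.2 +
      (x (some (τ p).1)).2 (τ p).2.2 = 0)
    (fun x p => by
      simp only [Fml.eval]
      exact mul_ite_cases _ _)
    (fun x p => by
      simp only [Fml.eval]
      exact Pool.Agent.Y638.RF.ET.val_eq ((x (some (τ p).1)).1 (τ p).2.1)
        (x none (τ p).2.1 (τ p).2.2) ((x (some (τ p).1)).2 (τ p).2.2))
    (fun x => decide (∃ j, (x (some (τ j).1)).1 (τ j).2.1 + x none (τ j).2.1 (τ j).2.2 +
        (x (some (τ j).1)).2 (τ j).2.2 = 0)) (fun x => by rw [decide_eq_true_iff])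
  obtain ⟨B, h3, h4⟩ := exists_program F (4 * K + 1) (by
    rw [h1]
    simp only [Fml.size, sum_const, card_univ, Fintype.card_fin, smul_eq_mul]
    omega)
  refine ⟨B, h3, fun x => ?_⟩
  rw [h4, h2, decide_eq_true_iff]

theorem upper (n t w q : ℕ) (hn : 1 ≤ n) (ht : 1 ≤ t) :
    ∃ (Ω : Type) (_ : Fintype Ω) (μ : Ω → ℝ), IsProb μ ∧
      ∃ B : Ω → Program (Option (Fin n)) (Item n) w q (4 * ((2 * n ^ 3 + t - 1) / t) + 1),
        (∀ ω, (B ω).nodes = 1) ∧ (∀ ω x, (B ω).eval x = true → zeroTri n x = true) ∧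
        ApproximatesOn μ (fun ω => (B ω).eval) (Gap n t) (zeroTri n) := by
  classical
  set K : ℕ := (2 * n ^ 3 + t - 1) / t with hK
  have hKt : 2 * n ^ 3 ≤ t * K := by
    have h1 : 2 * n ^ 3 + t - 1 < t * (K + 1) := by
      rw [hK]; exact Nat.lt_mul_div_succ _ (by omega)
    have h2 : t * (K + 1) = t * K + t := by ring
    omega
  have : Nonempty (Fin n) := ⟨⟨0, hn⟩⟩
  choose B hB1 hB2 using fun τ : Fin K → Fin n × Fin n × Fin n => test n w q K τ
  have hsound : ∀ ω x, (B ω).eval x = true → zeroTri n x = true := by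
    intro ω x h
    rw [hB2] at h
    obtain ⟨j, hj⟩ := h
    unfold zeroTri
    rw [decide_eq_true_iff]
    exact ⟨_, _, _, hj⟩
  have hcT : Fintype.card (Fin n × Fin n × Fin n) = n ^ 3 := by
    simp [Fintype.card_prod]; ring
  have hcO : Fintype.card (Fin K → Fin n × Fin n × Fin n) = (n ^ 3) ^ K := by
    rw [Fintype.card_fun, hcT, Fintype.card_fin]
  have hpos : (0 : ℝ) < (((n ^ 3) ^ K : ℕ) : ℝ) := by
    have : 0 < (n ^ 3) ^ K := by positivity
    exact_mod_cast this
  refine ⟨Fin K → Fin n × Fin n × Fin n, inferInstance, fun _ => 1 / (((n ^ 3) ^ K : ℕ) : ℝ),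
    ⟨fun _ => by positivity, ?_⟩, B, hB1, hsound, ?_⟩
  · rw [Finset.sum_const, Finset.card_univ, hcO, nsmul_eq_mul]
    field_simp
  · intro x hx
    rw [Finset.sum_const, nsmul_eq_mul]
    rcases hx with h0 | h0
    · have he : (univ.filter fun ω : Fin K → Fin n × Fin n × Fin n =>
          (B ω).eval x ≠ zeroTri n x) = ∅ := by
        rw [Finset.filter_eq_empty_iff]
        intro ω _ hne
        apply hne
        have hz : zeroTri n x = false := by
          rw [Bool.eq_false_iff]
          intro h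
          exact (zeroTri_iff n x).1 h h0
        rw [hz]
        rw [Bool.eq_false_iff]
        intro h
        rw [hsound ω x h] at hz
        exact absurd hz (by simp)
      rw [he]
      norm_num
    · set S := univ.filter fun p : Fin n × Fin n × Fin n =>
        (x (some p.1)).1 p.2.1 + x none p.2.1 p.2.2 + (x (some p.1)).2 p.2.2 = 0 with hS
      have hSc : t ≤ S.card := h0
      have hz : zeroTri n x = true := by
        rw [zeroTri_iff]
        have : numZero n x = S.card := rfl
        omega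
      have he : (univ.filter fun ω : Fin K → Fin n × Fin n × Fin n =>
          (B ω).eval x ≠ zeroTri n x) ⊆ Fintype.piFinset (fun _ : Fin K => Sᶜ) := by
        intro ω hω
        rw [Finset.mem_filter, hz] at hω
        rw [Fintype.mem_piFinset]
        intro j
        rw [Finset.mem_compl]
        intro hj
        apply hω.2
        rw [hB2]
        exact ⟨j, (Finset.mem_filter.1 hj).2⟩
      have hcard : ((univ.filter fun ω : Fin K → Fin n × Fin n × Fin n =>
          (B ω).eval x ≠ zeroTri n x).card : ℝ) ≤ ((n : ℝ) ^ 3 - t) ^ K := by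
        have h1 := Finset.card_le_card he
        rw [Fintype.card_piFinset_const, Finset.card_compl, hcT] at h1
        have h2 : S.card ≤ n ^ 3 := by rw [← hcT]; exact Finset.card_le_univ S
        have h3 : (((n ^ 3 - S.card : ℕ)) : ℝ) ≤ (n : ℝ) ^ 3 - t := by
          rw [Nat.cast_sub h2]
          push_cast
          have : (t : ℝ) ≤ S.card := by exact_mod_cast hSc
          linarith
        calc ((univ.filter fun ω : Fin K → Fin n × Fin n × Fin n =>
            (B ω).eval x ≠ zeroTri n x).card : ℝ) ≤ (((n ^ 3 - S.card) ^ K : ℕ) : ℝ) := by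
              exact_mod_cast h1
          _ = (((n ^ 3 - S.card : ℕ)) : ℝ) ^ K := by push_cast; ring
          _ ≤ _ := pow_le_pow_left₀ (by positivity) h3 K
      have ht3 : (t : ℝ) ≤ (n : ℝ) ^ 3 := by
        have h2 : S.card ≤ n ^ 3 := by rw [← hcT]; exact Finset.card_le_univ S
        exact_mod_cast hSc.trans h2
      have hn3 : (0 : ℝ) < (n : ℝ) ^ 3 := by positivity
      have hfin : ((n : ℝ) ^ 3 - t) ^ K * (1 / (((n ^ 3) ^ K : ℕ) : ℝ)) ≤ 1 / 3 := by
        have e1 : ((n : ℝ) ^ 3 - t) ^ K * (1 / (((n ^ 3) ^ K : ℕ) : ℝ)) =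
            (1 - t / (n : ℝ) ^ 3) ^ K := by
          push_cast
          rw [one_div, ← div_eq_mul_inv, ← div_pow]
          congr 1
          field_simp
        rw [e1]
        have h4 : 1 - t / (n : ℝ) ^ 3 ≤ Real.exp (-(t / (n : ℝ) ^ 3)) := by
          have := Real.add_one_le_exp (-(t / (n : ℝ) ^ 3))
          linarith
        have h5 : 0 ≤ 1 - t / (n : ℝ) ^ 3 := by
          rw [sub_nonneg, div_le_one hn3]; exact ht3
        calc (1 - t / (n : ℝ) ^ 3) ^ K ≤ (Real.exp (-(t / (n : ℝ) ^ 3))) ^ K :=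
              pow_le_pow_left₀ h5 h4 K
          _ = Real.exp (-(K * (t / (n : ℝ) ^ 3))) := by
              rw [← Real.exp_nat_mul]; congr 1; ring
          _ ≤ Real.exp (-2) := by
              apply Real.exp_le_exp.2
              have h6 : (2 : ℝ) * (n : ℝ) ^ 3 ≤ t * K := by exact_mod_cast hKt
              have h7 : 2 ≤ (K : ℝ) * (t / (n : ℝ) ^ 3) := by
                rw [← mul_div_assoc, le_div_iff₀ hn3]; linarith
              linarith
          _ ≤ 1 / 3 := by
              have h8 : (3 : ℝ) ≤ Real.exp 2 := by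
                have := Real.add_one_le_exp (2 : ℝ)
                linarith
              rw [Real.exp_neg, one_div]
              exact inv_anti₀ (by norm_num) h8
      refine le_trans ?_ hfin
      exact mul_le_mul_of_nonneg_right hcard (by positivity)

end Pool.Agent.H29.ET2
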