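import Pool.Graph.R_pool_sql_team_seeded_1acbe0a2.Y638.RF.ET

set_option autoImplicit false

/-! # Substitution of items in real formulas and branching programs -/

namespace Pool.Agent.H29.ET2

open Finset Pool.Agent.Y638.RF

variable {ι ι' : Type} {D : ι → Type} {D' : ι' → Type} {w q : ℕ}

/-- Substitution: item `i` is computed from item `π i`. -/
def fsubst (π : ι → ι') (φ : ∀ i, D' (π i) → D i) : Fml ι D w q → Fml ι' D' w q
  | .const c => .const c
  | .item i f => .item (π i) (fun d => f (φ i d))
  | .word τ => .word ⟨fun k => π (τ.item k), fun k d => τ.view k (φ (τ.item k) d), τ.out⟩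
  | .add F G => .add (fsubst π φ F) (fsubst π φ G)
  | .mul F G => .mul (fsubst π φ F) (fsubst π φ G)
  | .pos F => .pos (fsubst π φ F)
  | .sym k h F => .sym k h (fun j => fsubst π φ (F j))

theorem eval_fsubst (π : ι → ι') (φ : ∀ i, D' (π i) → D i) (F : Fml ι D w q)
    (x : ∀ i, D' i) : (fsubst π φ F).eval x = F.eval (fun i => φ i (x (π i))) := by
  induction F with
  | const c => rfl
  | item i f => rfl
  | word τ => rfl
  | add F G hF hG => simp [fsubst, Fml.eval, hF, hG]
  | mul F G hF hG => simp [fsubst, Fml.eval, hF, hG]
  | pos F hF => simp [fsubst, Fml.eval, hF]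
  | sym k h F hF => simp [fsubst, Fml.eval, hF]

theorem size_fsubst (π : ι → ι') (φ : ∀ i, D' (π i) → D i) (F : Fml ι D w q) :
    (fsubst π φ F).size = F.size := by
  induction F with
  | const c => rfl
  | item i f => rfl
  | word τ => rfl
  | add F G hF hG => simp [fsubst, Fml.size, hF, hG]
  | mul F G hF hG => simp [fsubst, Fml.size, hF, hG]
  | pos F hF => simp [fsubst, Fml.size, hF]
  | sym k h F hF => simp [fsubst, Fml.size, hF]

/-- Substitution in a branching program. -/
def bsubst (π : ι → ι') (φ : ∀ i, D' (π i) → D i) : {n : ℕ} → BP ι D w q n → BP ι' D' w q n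
  | _, .sinks => .sinks
  | _, .node B F no yes => .node (bsubst π φ B) (fsubst π φ F) no yes

theorem val_bsubst (π : ι → ι') (φ : ∀ i, D' (π i) → D i) (x : ∀ i, D' i) {n : ℕ}
    (B : BP ι D w q n) : ∀ v, (bsubst π φ B).val x v = B.val (fun i => φ i (x (π i))) v := by
  induction B with
  | sinks => intro v; rfl
  | node B F no yes ih =>
    intro v
    have hacc : (fsubst π φ F).accepts x = F.accepts (fun i => φ i (x (π i))) := by
      unfold Fml.accepts
      rw [eval_fsubst]
    have e1 : ∀ v, (bsubst π φ (B.node F no yes)).val x v =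
        Fin.lastCases (motive := fun _ => Bool)
          (if (fsubst π φ F).accepts x then (bsubst π φ B).val x yes else (bsubst π φ B).val x no)
          (fun u => (bsubst π φ B).val x u) v := fun v => rfl
    have e2 : ∀ v, (B.node F no yes).val (fun i => φ i (x (π i))) v =
        Fin.lastCases (motive := fun _ => Bool)
          (if F.accepts (fun i => φ i (x (π i))) then B.val (fun i => φ i (x (π i))) yes
            else B.val (fun i => φ i (x (π i))) no)
          (fun u => B.val (fun i => φ i (x (π i))) u) v := fun v => rfl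
    rw [e1, e2, hacc, ih yes, ih no, funext ih]

theorem size_bsubst (π : ι → ι') (φ : ∀ i, D' (π i) → D i) {n : ℕ}
    (B : BP ι D w q n) : (bsubst π φ B).size = B.size := by
  induction B with
  | sinks => rfl
  | node B F no yes ih => simp [bsubst, BP.size, ih, size_fsubst]

/-- Substitution in a program. -/
def psubst {s : ℕ} (π : ι → ι') (φ : ∀ i, D' (π i) → D i) (B : Program ι D w q s) :
    Program ι' D' w q s where
  nodes := B.nodes
  bp := bsubst π φ B.bp
  size_le := by rw [size_bsubst]; exact B.size_le
  start := B.start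

theorem eval_psubst {s : ℕ} (π : ι → ι') (φ : ∀ i, D' (π i) → D i) (B : Program ι D w q s)
    (x : ∀ i, D' i) : (psubst π φ B).eval x = B.eval (fun i => φ i (x (π i))) :=
  val_bsubst π φ x B.bp B.start

end Pool.Agent.H29.ET2
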